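import Pool.Agent.Helper45.LGB.St

set_option autoImplicit false

/-!
Project LGB (problem MP_97dcad_al), module LST: routine facts about the Lie algebra generated by the
letters.
-/

namespace Pool.Agent.Helper69.LGB

open Pool.Agent.Helper45.LGB

section

variable {p : ℕ} {ι V : Type} [AddCommGroup V] [Module (ZMod p) V]
  {f : ι → Module.End (ZMod p) V} {Y : Set ι}

private lemma cb_apply (a b : Module.End (ZMod p) V) (v : V) :
    cb a b v = a (b v) - b (a v) := by
  simp [cb, LinearMap.sub_apply, Module.End.mul_apply]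

private lemma lam_stable {W : Submodule (ZMod p) V} (hW : Stb f Y W)
    {l : Module.End (ZMod p) V} (hl : Lam f Y l) : ∀ w ∈ W, l w ∈ W := by
  induction hl with
  | gen y hy => exact hW y hy
  | zero => intro w _; simp
  | add a b _ _ iha ihb =>
    intro w hw
    rw [LinearMap.add_apply]
    exact W.add_mem (iha w hw) (ihb w hw)
  | smul c a _ iha =>
    intro w hw
    rw [LinearMap.smul_apply]
    exact W.smul_mem c (iha w hw)
  | lie a b _ _ iha ihb =>
    intro w hw
    rw [cb_apply]
    exact W.sub_mem (iha _ (ihb w hw)) (ihb _ (iha w hw))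

private lemma lam_mono {Z : Set ι} (hZ : Z ⊆ Y) {l : Module.End (ZMod p) V} (hl : Lam f Z l) :
    Lam f Y l := by
  induction hl with
  | gen y hy => exact Lam.gen y (hZ hy)
  | zero => exact Lam.zero
  | add a b _ _ iha ihb => exact Lam.add a b iha ihb
  | smul c a _ iha => exact Lam.smul c a iha
  | lie a b _ _ iha ihb => exact Lam.lie a b iha ihb

private lemma lam_kill {W' : Submodule (ZMod p) V} {v : V} (hW : Stb f Y W')
    (hv : ∀ z ∈ Y, f z v ∈ W') {d : Module.End (ZMod p) V} (hd : Lam f Y d) : d v ∈ W' := by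
  induction hd with
  | gen y hy => exact hv y hy
  | zero => simp
  | add a b _ _ iha ihb =>
    rw [LinearMap.add_apply]
    exact W'.add_mem iha ihb
  | smul c a _ iha =>
    rw [LinearMap.smul_apply]
    exact W'.smul_mem c iha
  | lie a b ha hb iha ihb =>
    rw [cb_apply]
    exact W'.sub_mem (lam_stable hW ha _ ihb) (lam_stable hW hb _ iha)

private lemma lam_comm {a : Module.End (ZMod p) V} (ha : ∀ z ∈ Y, a * f z = f z * a)
    {d : Module.End (ZMod p) V} (hd : Lam f Y d) : a * d = d * a := by
  induction hd with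
  | gen y hy => exact ha y hy
  | zero => simp
  | add b c _ _ ihb ihc => rw [mul_add, add_mul, ihb, ihc]
  | smul c b _ ihb => rw [mul_smul_comm, smul_mul_assoc, ihb]
  | lie b c _ _ ihb ihc =>
    unfold cb
    rw [mul_sub, sub_mul, ← mul_assoc, ihb, mul_assoc, ihc, ← mul_assoc, ← mul_assoc a c b, ihc,
      mul_assoc c a b, ihb, ← mul_assoc]

private lemma lam_ad (u : List ι) : ∀ ν : Module.End (ZMod p) V, (∀ i ∈ u, i ∈ Y) → Lam f Y ν →
    Lam f Y (ad f u ν) := by
  induction u with
  | nil => intro ν _ h; exact h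
  | cons y u ih =>
    intro ν hu h
    exact ih (cb (f y) ν) (fun i hi => hu i (List.mem_cons_of_mem _ hi))
      (Lam.lie _ _ (Lam.gen y (hu y List.mem_cons_self)) h)

private lemma act_stable {W : Submodule (ZMod p) V} (hW : Stb f Y W) (u : List ι) :
    (∀ i ∈ u, i ∈ Y) → ∀ w ∈ W, act f u w ∈ W := by
  induction u with
  | nil => intro _ w hw; exact hw
  | cons y u ih =>
    intro hu w hw
    exact ih (fun i hi => hu i (List.mem_cons_of_mem _ hi)) (f y w)
      (hW y (hu y List.mem_cons_self) w hw)

private lemma act_sub (u : List ι) : ∀ v w : V, act f u (v - w) = act f u v - act f u w := by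
  induction u with
  | nil => intro v w; rfl
  | cons y u ih =>
    intro v w
    change act f u (f y (v - w)) = act f u (f y v) - act f u (f y w)
    rw [map_sub, ih]

private lemma ad_act {Z : Set ι} {W' : Submodule (ZMod p) V} {v : V} (hZ : Z ⊆ Y)
    (hW : Stb f Y W') (hv : ∀ z ∈ Z, f z v ∈ W') (u : List ι) :
    (∀ i ∈ u, i ∈ Z) → ∀ ν : Module.End (ZMod p) V, Lam f Y ν →
      (ad f u ν) v - act f u (ν v) ∈ W' := by
  induction u with
  | nil =>
    intro _ ν _
    change ν v - ν v ∈ W'
    rw [sub_self]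
    exact W'.zero_mem
  | cons z u ih =>
    intro hu ν hν
    have hz : z ∈ Z := hu z List.mem_cons_self
    have hu' : ∀ i ∈ u, i ∈ Z := fun i hi => hu i (List.mem_cons_of_mem _ hi)
    have h1 := ih hu' (cb (f z) ν) (Lam.lie _ _ (Lam.gen z (hZ hz)) hν)
    change (ad f u (cb (f z) ν)) v - act f u (f z (ν v)) ∈ W'
    have h2 : act f u ((cb (f z) ν) v) = act f u (f z (ν v)) - act f u (ν (f z v)) := by
      rw [cb_apply, act_sub]
    rw [h2] at h1
    have h3 : act f u (ν (f z v)) ∈ W' :=
      act_stable hW u (fun i hi => hZ (hu' i hi)) _ (lam_stable hW hν _ (hv z hz))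
    have h4 := W'.sub_mem h1 h3
    have h5 : (ad f u (cb (f z) ν)) v - (act f u (f z (ν v)) - act f u (ν (f z v))) -
        act f u (ν (f z v)) = (ad f u (cb (f z) ν)) v - act f u (f z (ν v)) := by abel
    rw [h5] at h4
    exact h4

end

theorem hLST : StLST := by
  intro p ι V _ _ f Y
  refine ⟨fun W hW l hl => lam_stable hW hl, fun Z hZ l hl => lam_mono hZ hl,
    fun W' v hW hv d hd => lam_kill hW hv hd, fun a ha d hd => lam_comm ha hd,
    fun u ν hu hν => lam_ad u ν hu hν, ?_, ?_, fun W hW u hu => act_stable hW u hu,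
    fun Z W' v hZ hW hv u hu ν hν => ad_act hZ hW hv u hu ν hν⟩
  · intro u u' v
    unfold act
    rw [List.foldl_append]
  · intro u u' ν
    unfold ad
    rw [List.foldl_append]

end Pool.Agent.Helper69.LGB
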